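import Pool.Agent.Lib.MP_568ee7_co.Final

open MeasureTheory Set

namespace Pool.Agent.Results.MP_568ee7_co.Bounded

/-- The closed intervals `[a v, b v]` and the positive tolerances `t v` represent `G`. -/
def IsTolRep {V : Type*} (G : SimpleGraph V) (a b t : V → ℝ) : Prop :=
  (∀ v, a v ≤ b v) ∧ (∀ v, 0 < t v) ∧ ∀ v w, v ≠ w →
    (G.Adj v w ↔ min (t v) (t w) ≤ (volume (Icc (a v) (b v) ∩ Icc (a w) (b w))).toReal)

theorem len (a b a' b' : ℝ) :
    (volume (Icc a b ∩ Icc a' b')).toReal = max 0 (min b b' - max a a') := by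
  rw [Icc_inter_Icc, Real.volume_Icc, ENNReal.toReal_ofReal', max_comm]

theorem result {V : Type*} [Finite V] (G : SimpleGraph V)
    (htol : ∃ a b t : V → ℝ, IsTolRep G a b t)
    (hco : ∃ P : PartialOrder V, ∀ v w, Gᶜ.Adj v w ↔ P.lt v w ∨ P.lt w v) :
    ∃ a b t : V → ℝ, IsTolRep G a b t ∧ ∀ v, t v ≤ b v - a v := by
  obtain ⟨a, b, t, -, ht, hG⟩ := htol
  obtain ⟨P, hP⟩ := hco
  obtain ⟨n, ⟨e⟩⟩ := Finite.exists_equiv_fin V
  simp only [len] at hG
  obtain ⟨a', b', t', h1, h2, h3, -, h4⟩ :=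
    Pool.Agent.Lib.MP_568ee7_co.bounded_rep (G.comap e.symm) (a ∘ e.symm) (b ∘ e.symm)
      (t ∘ e.symm) (fun v => ht _) (fun v w h => hG _ _ (e.symm.injective.ne h))
      (fun v w => P.lt (e.symm v) (e.symm w)) (fun x => lt_irrefl _)
      (fun x y z h h' => lt_trans h h') (fun v w h => by
        rw [← hP, SimpleGraph.compl_adj, and_iff_right (e.symm.injective.ne h)]
        rfl)
  refine ⟨a' ∘ e, b' ∘ e, t' ∘ e, ⟨fun v => h1 _, fun v => h2 _, fun v w h => ?_⟩, fun v => h3 _⟩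
  rw [len]
  simpa using h4 (e v) (e w) (e.injective.ne h)

end Pool.Agent.Results.MP_568ee7_co.Bounded
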